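import Pool.Agent.Helper71.TVS.Star

/-!
# Stars: choice of the constants (MP_92efc2)
-/

set_option autoImplicit false

open Finset Filter

namespace Pool.Agent.Helper71.TVS

theorem poly_exp (C r : ℝ) (m : ℕ) (hr0 : 0 < r) (hr1 : r < 1) :
    ∃ t₀ : ℕ, ∀ t ≥ t₀, C * ((t : ℝ) + 1) ^ m * r ^ t < 1 := by
  have h1 := tendsto_pow_const_mul_const_pow_of_lt_one m hr0.le hr1
  have h2 := (tendsto_add_atTop_iff_nat 1).2 h1
  have h3 := h2.const_mul (C / r)
  rw [mul_zero] at h3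
  obtain ⟨t₀, ht₀⟩ := eventually_atTop.1 (h3.eventually (gt_mem_nhds (zero_lt_one)))
  refine ⟨t₀, fun t ht => ?_⟩
  have h4 := ht₀ t ht
  push_cast at h4
  have h5 : C / r * (((t : ℝ) + 1) ^ m * r ^ (t + 1)) = C * ((t : ℝ) + 1) ^ m * r ^ t := by
    rw [pow_succ]
    field_simp
  rwa [h5] at h4

variable {E : Type*} [NormedAddCommGroup E] [NormedSpace ℝ E] [DecidableEq E]

/-- for large `S`, all `j` up to nearly `|S|/(k+1)` -/
theorem star_upper [FiniteDimensional ℝ E] {k : ℕ} (hE : Module.finrank ℝ E = 2 * k + 1) {δ : ℝ} (hδ : 0 < δ) :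
    ∃ N₀ : ℕ, ∀ S : Finset E, GP (2 * k + 1) S → N₀ ≤ S.card → ∀ j : ℕ,
      ((k : ℝ) + 1) * j ≤ (1 - δ) * S.card →
      ∃ P : Fin (j + 1) → Finset E, (∀ i, (P i).Nonempty) ∧ (∀ i i', i ≠ i' → Disjoint (P i) (P i')) ∧
      (∀ x, x ∈ S ↔ ∃ i, x ∈ P i) ∧ ∀ i i', i ≠ i' → (Meet (P i) (P i') ↔ i = 0 ∨ i' = 0) := by
  classical
  set K : ℕ := 2 ^ (3 * k + 3) * (3 * k + 3) with hK
  set C : ℕ := (3 * k + 3) * (3 * k + 3) + 1 with hC
  have hK0 : (0 : ℝ) ≤ (K : ℝ) := Nat.cast_nonneg _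
  set ε : ℝ := min (1 / 2) (δ / (3 * ((K : ℝ) + 1))) with hε
  have hε0 : 0 < ε := lt_min (by norm_num) (by positivity)
  have hε1 : ε ≤ 1 / 2 := min_le_left _ _
  have hεK : (K : ℝ) * ε ≤ δ / 3 := by
    have h1 : ε ≤ δ / (3 * ((K : ℝ) + 1)) := min_le_right _ _
    have h2 : ((K : ℝ) + 1) * ε ≤ ((K : ℝ) + 1) * (δ / (3 * ((K : ℝ) + 1))) :=
      mul_le_mul_of_nonneg_left h1 (by positivity)
    have h3 : ((K : ℝ) + 1) * (δ / (3 * ((K : ℝ) + 1))) = δ / 3 := by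
      field_simp
    nlinarith
  obtain ⟨q, hq⟩ := exists_nat_gt (3 / δ)
  have hq0 : 0 < q := by
    have : (0 : ℝ) < q := lt_trans (by positivity) hq
    exact_mod_cast this
  have hq0' : (0 : ℝ) < q := by exact_mod_cast hq0
  have hqδ : 1 / (q : ℝ) ≤ δ / 3 := by
    rw [div_le_div_iff₀ hq0' (by norm_num)]
    have := (div_lt_iff₀ hδ).1 hq
    linarith
  obtain ⟨t₀, ht₀⟩ := poly_exp (((2 * k + 1 : ℕ) + 2 : ℝ) * (q : ℝ) ^ (2 * k + 1 + 1)) (1 - ε) (2 * k + 1 + 1)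
    (by linarith) (by linarith)
  obtain ⟨N₁, hN₁⟩ := exists_nat_gt (3 * (C : ℝ) / δ)
  refine ⟨max (q * (t₀ + 1)) (max N₁ 1), fun S hS hSc j hj => ?_⟩
  have hN1 : q * (t₀ + 1) ≤ S.card := (le_max_left _ _).trans hSc
  have hN2 : N₁ ≤ S.card := ((le_max_left _ _).trans (le_max_right _ _)).trans hSc
  have hN3 : 1 ≤ S.card := ((le_max_right _ _).trans (le_max_right _ _)).trans hSc
  set N := S.card with hN
  have hN0 : (0 : ℝ) < (N : ℝ) := by exact_mod_cast hN3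
  set t := N / q with ht
  have htt : t₀ ≤ t := by
    rw [ht, Nat.le_div_iff_mul_le hq0]
    calc t₀ * q ≤ q * (t₀ + 1) := by nlinarith
      _ ≤ N := hN1
  have hNt : N + 1 ≤ q * (t + 1) := Nat.lt_mul_div_succ N hq0
  set b := ⌊ε * N⌋₊ with hb
  have hb1 : (b : ℝ) ≤ ε * N := Nat.floor_le (by positivity)
  have hb2 : ε * N < (b : ℝ) + 1 := Nat.lt_floor_add_one _
  set F := (Fam S).filter (fun X => b < X.card) with hF
  obtain ⟨B, hBS, hBt, hBc⟩ := exists_hit S F ε (by linarith) (fun X hX => (mem_Fam.1 (mem_filter.1 hX).1).1)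
    (fun X hX => by
      have h1 := (mem_filter.1 hX).2
      have h2 : (b : ℝ) + 1 ≤ X.card := by exact_mod_cast h1
      rw [← hN]
      linarith) (card_pos.1 (by omega)) t
  have hFc : (F.card : ℝ) ≤ (((2 * k + 1 : ℕ) : ℝ) + 2) * ((q : ℝ) * (t + 1)) ^ (2 * k + 1 + 1) := by
    have h1 : F.card ≤ (2 * k + 1 + 2) * (N + 1) ^ (2 * k + 1 + 1) := by
      refine (card_filter_le _ _).trans ?_
      have := card_Fam S
      rwa [hE] at this
    have h2 : F.card ≤ (2 * k + 1 + 2) * (q * (t + 1)) ^ (2 * k + 1 + 1) :=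
      h1.trans (Nat.mul_le_mul_left _ (Nat.pow_le_pow_left hNt _))
    exact_mod_cast h2
  have hunhit : ((F.filter (fun X => Disjoint X B)).card : ℝ) < 1 := by
    refine lt_of_le_of_lt hBc ?_
    have h1 := ht₀ t htt
    have h2 : (1 - ε) ^ t * (F.card : ℝ) ≤
        (1 - ε) ^ t * ((((2 * k + 1 : ℕ) : ℝ) + 2) * ((q : ℝ) * (t + 1)) ^ (2 * k + 1 + 1)) :=
      mul_le_mul_of_nonneg_left hFc (pow_nonneg (by linarith) _)
    refine lt_of_le_of_lt h2 (lt_of_le_of_lt (le_of_eq ?_) h1)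
    rw [mul_pow]
    ring
  have hunhit' : F.filter (fun X => Disjoint X B) = ∅ := by
    rw [← card_eq_zero]
    have : (F.filter (fun X => Disjoint X B)).card < 1 := by exact_mod_cast hunhit
    omega
  refine star_parts hE (b := b) hS hBS (fun X hX hXb hdis => ?_) ?_
  · have : X ∈ F.filter (fun X => Disjoint X B) := mem_filter.2 ⟨mem_filter.2 ⟨hX, hXb⟩, hdis⟩
    rw [hunhit'] at this
    exact notMem_empty _ this
  · have h1 : (B.card : ℝ) ≤ δ / 3 * N := by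
      have h2 : (B.card : ℝ) ≤ t := by exact_mod_cast hBt
      have h3 : (t : ℝ) ≤ (N : ℝ) / q := Nat.cast_div_le
      have h4 : (N : ℝ) / q = 1 / (q : ℝ) * N := by ring
      rw [h4] at h3
      exact (h2.trans h3).trans (mul_le_mul_of_nonneg_right hqδ hN0.le)
    have h5 : (K : ℝ) * b ≤ δ / 3 * N := by
      calc (K : ℝ) * b ≤ K * (ε * N) := mul_le_mul_of_nonneg_left hb1 hK0
        _ = K * ε * N := by ring
        _ ≤ δ / 3 * N := mul_le_mul_of_nonneg_right hεK hN0.le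
    have h6 : (C : ℝ) ≤ δ / 3 * N := by
      have h7 : 3 * (C : ℝ) / δ < N := lt_of_lt_of_le hN₁ (by exact_mod_cast hN2)
      rw [div_lt_iff₀ hδ] at h7
      linarith
    have h8 : ((B.card + (K * b + C) + (k + 1) * j : ℕ) : ℝ) ≤ (N : ℝ) := by
      push_cast
      nlinarith
    have h9 : B.card + (K * b + C) + (k + 1) * j ≤ N := by exact_mod_cast h8
    rw [← hN]
    refine le_trans (le_of_eq ?_) h9
    rw [hC]
    ring

end Pool.Agent.Helper71.TVS
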