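import Mathlib

/-!
# Stars: Radon, separation, separable subsets (MP_92efc2)
-/

set_option autoImplicit false

open Finset

namespace Pool.Agent.Helper71.TVS

variable {E : Type*} [NormedAddCommGroup E] [NormedSpace ℝ E]

/-- the convex hulls meet -/
def Meet (A B : Finset E) : Prop :=
  (convexHull ℝ (A : Set E) ∩ convexHull ℝ (B : Set E)).Nonempty

theorem Meet.symm {A B : Finset E} (h : Meet A B) : Meet B A := by
  unfold Meet at *
  rwa [Set.inter_comm]

theorem Meet.mono {A B A' B' : Finset E} (h : Meet A B) (hA : A ⊆ A') (hB : B ⊆ B') : Meet A' B' :=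
  Set.Nonempty.mono (Set.inter_subset_inter (convexHull_mono (by exact_mod_cast hA))
    (convexHull_mono (by exact_mod_cast hB))) h

theorem Meet.left {A B : Finset E} (h : Meet A B) : A.Nonempty := by
  obtain ⟨z, hz, -⟩ := h
  have := (convexHull_nonempty_iff (𝕜 := ℝ)).1 ⟨z, hz⟩
  exact_mod_cast this

/-- two sets separated by a linear functional do not meet -/
theorem not_meet_of_sep {A B : Finset E} (f : E →ₗ[ℝ] ℝ) (u : ℝ) (hA : ∀ x ∈ A, f x < u)
    (hB : ∀ x ∈ B, u ≤ f x) : ¬ Meet A B := by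
  rintro ⟨z, hz, hz'⟩
  have h1 : convexHull ℝ (A : Set E) ⊆ {x | f x < u} :=
    convexHull_min (fun x hx => hA x hx) (convex_halfSpace_lt f.isLinear u)
  have h2 : convexHull ℝ (B : Set E) ⊆ {x | u ≤ f x} :=
    convexHull_min (fun x hx => hB x hx) (convex_halfSpace_ge f.isLinear u)
  have h3 : f z < u := h1 hz
  have h4 : u ≤ f z := h2 hz'
  exact absurd h3 (not_lt.2 h4)

variable [DecidableEq E]

/-- Radon's theorem for finite sets -/
theorem radon [FiniteDimensional ℝ E] (T : Finset E) (hT : Module.finrank ℝ E + 2 ≤ T.card) :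
    ∃ I ⊆ T, Meet I (T \ I) := by
  have h : ¬ AffineIndependent ℝ (fun x : T => (x : E)) := by
    intro h
    have h1 := h.card_le_finrank_succ
    rw [Fintype.card_coe] at h1
    have h2 := Submodule.finrank_le (vectorSpan ℝ (Set.range fun x : T => (x : E)))
    omega
  obtain ⟨I, z, hz1, hz2⟩ := Convex.radon_partition h
  classical
  refine ⟨T.filter (fun x => ∃ h : x ∈ T, (⟨x, h⟩ : T) ∈ I), filter_subset _ _, z, ?_, ?_⟩
  · refine convexHull_mono ?_ hz1
    rintro _ ⟨x, hx, rfl⟩
    rw [mem_coe, mem_filter]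
    exact ⟨x.2, x.2, hx⟩
  · refine convexHull_mono ?_ hz2
    rintro _ ⟨x, hx, rfl⟩
    rw [mem_coe, mem_sdiff, mem_filter]
    refine ⟨x.2, ?_⟩
    rintro ⟨_, h1, h2⟩
    exact hx h2

/-- the separable subsets of `S` -/
noncomputable def Fam (S : Finset E) : Finset (Finset E) := by
  classical
  exact S.powerset.filter (fun X => ¬ Meet X (S \ X))

theorem mem_Fam {S X : Finset E} : X ∈ Fam S ↔ X ⊆ S ∧ ¬ Meet X (S \ X) := by
  unfold Fam
  simp

/-- separation: if the hulls of `A` and `B` are disjoint then a separable subset contains `A` and avoids `B` -/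
theorem exists_sep {S A B : Finset E} (hA : A ⊆ S) (h : ¬ Meet A B) :
    ∃ X ∈ Fam S, A ⊆ X ∧ Disjoint X B := by
  classical
  have hd : Disjoint (convexHull ℝ (A : Set E)) (convexHull ℝ (B : Set E)) := by
    rw [Set.disjoint_iff_inter_eq_empty]
    exact Set.not_nonempty_iff_eq_empty.1 h
  obtain ⟨f, u, v, h1, h2, h3⟩ := geometric_hahn_banach_compact_closed (convex_convexHull ℝ _)
    (A.finite_toSet.isCompact_convexHull ℝ) (convex_convexHull ℝ _)
    (B.finite_toSet.isClosed_convexHull ℝ) hd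
  refine ⟨S.filter (fun x => f x < u), mem_Fam.2 ⟨filter_subset _ _, ?_⟩, ?_, ?_⟩
  · refine not_meet_of_sep (f : E →ₗ[ℝ] ℝ) u (fun x hx => (mem_filter.1 hx).2) (fun x hx => ?_)
    rw [mem_sdiff, mem_filter, not_and] at hx
    exact not_lt.1 (hx.2 hx.1)
  · intro x hx
    exact mem_filter.2 ⟨hA hx, h1 x (subset_convexHull ℝ _ (mem_coe.2 hx))⟩
  · rw [disjoint_left]
    intro x hx hx'
    have h4 := (mem_filter.1 hx).2
    have h5 := h3 x (subset_convexHull ℝ _ (mem_coe.2 hx'))
    linarith

/-- the number of separable subsets is polynomial -/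
theorem card_Fam [FiniteDimensional ℝ E] (S : Finset E) :
    (Fam S).card ≤ (Module.finrank ℝ E + 2) * (S.card + 1) ^ (Module.finrank ℝ E + 1) := by
  classical
  set D := Module.finrank ℝ E with hD
  refine (card_le_card_shatterer (Fam S)).trans ?_
  have hsub : (Fam S).shatterer ⊆ (range (D + 2)).biUnion (fun i => S.powersetCard i) := by
    intro T hT
    rw [mem_shatterer] at hT
    have hTS : T ⊆ S := by
      obtain ⟨u, hu, hu'⟩ := hT (Subset.refl T)
      rw [inter_eq_left] at hu'
      exact hu'.trans (mem_Fam.1 hu).1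
    have hcard : T.card < D + 2 := by
      by_contra hcon
      obtain ⟨I, hI, hm⟩ := radon T (not_lt.1 hcon)
      obtain ⟨u, hu, hu'⟩ := hT hI
      refine (mem_Fam.1 hu).2 (hm.mono ?_ ?_)
      · rw [← hu']
        exact inter_subset_right
      · intro x hx
        rw [mem_sdiff] at hx ⊢
        refine ⟨hTS hx.1, fun hxu => hx.2 ?_⟩
        rw [← hu']
        exact mem_inter.2 ⟨hx.1, hxu⟩
    rw [mem_biUnion]
    exact ⟨T.card, mem_range.2 hcard, mem_powersetCard.2 ⟨hTS, rfl⟩⟩
  refine (card_le_card hsub).trans (card_biUnion_le.trans ?_)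
  calc ∑ i ∈ range (D + 2), (S.powersetCard i).card ≤ ∑ i ∈ range (D + 2), (S.card + 1) ^ (D + 1) := by
        refine sum_le_sum fun i hi => ?_
        rw [card_powersetCard]
        calc S.card.choose i ≤ S.card ^ i := Nat.choose_le_pow _ _
          _ ≤ (S.card + 1) ^ i := Nat.pow_le_pow_left (Nat.le_succ _) _
          _ ≤ (S.card + 1) ^ (D + 1) := Nat.pow_le_pow_right (Nat.succ_pos _) (by have := mem_range.1 hi; omega)
    _ = (D + 2) * (S.card + 1) ^ (D + 1) := by rw [sum_const, card_range, smul_eq_mul]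

/-- greedy hitting sets -/
theorem exists_hit {α : Type*} [DecidableEq α] (S : Finset α) (F : Finset (Finset α)) (ε : ℝ) (hε1 : ε ≤ 1)
    (hF : ∀ X ∈ F, X ⊆ S) (hc : ∀ X ∈ F, ε * S.card ≤ X.card) (hS : S.Nonempty) (t : ℕ) :
    ∃ B ⊆ S, B.card ≤ t ∧ ((F.filter (fun X => Disjoint X B)).card : ℝ) ≤ (1 - ε) ^ t * F.card := by
  induction t with
  | zero =>
    refine ⟨∅, empty_subset _, by simp, ?_⟩
    simp
  | succ t ih =>
    obtain ⟨B, hB, hBt, hBc⟩ := ih
    set G := F.filter (fun X => Disjoint X B) with hG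
    have hsum : ∑ s ∈ S, ((G.filter (fun X => s ∈ X)).card : ℝ) = ∑ X ∈ G, (X.card : ℝ) := by
      have h1 : ∑ s ∈ S, (G.filter (fun X => s ∈ X)).card = ∑ X ∈ G, X.card := by
        have h0 := sum_card_bipartiteAbove_eq_sum_card_bipartiteBelow (s := S) (t := G) (fun s X => s ∈ X)
        simp only [bipartiteAbove, bipartiteBelow] at h0
        rw [h0]
        refine sum_congr rfl fun X hX => ?_
        congr 1
        ext x
        simp only [mem_filter]
        exact ⟨fun h => h.2, fun h => ⟨hF X (mem_filter.1 hX).1 h, h⟩⟩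
      exact_mod_cast h1
    have h2 : ∃ s ∈ S, ε * G.card ≤ (G.filter (fun X => s ∈ X)).card := by
      by_contra hcon
      push Not at hcon
      have h3 : ∑ s ∈ S, ((G.filter (fun X => s ∈ X)).card : ℝ) < ∑ s ∈ S, ε * (G.card : ℝ) :=
        sum_lt_sum_of_nonempty hS hcon
      have h4 : ∑ X ∈ G, (ε * S.card : ℝ) ≤ ∑ X ∈ G, (X.card : ℝ) :=
        sum_le_sum fun X hX => hc X (mem_filter.1 hX).1
      rw [hsum] at h3
      rw [sum_const, nsmul_eq_mul] at h3 h4
      have h5 : (S.card : ℝ) * (ε * G.card) = G.card * (ε * S.card) := by ring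
      linarith
    obtain ⟨s, hs, hs'⟩ := h2
    refine ⟨insert s B, insert_subset hs hB, (card_insert_le _ _).trans (by omega), ?_⟩
    have h6 : F.filter (fun X => Disjoint X (insert s B)) = G.filter (fun X => s ∉ X) := by
      ext X
      simp only [hG, mem_filter, disjoint_insert_right]
      tauto
    have h7 : (G.filter (fun X => s ∈ X)).card + (G.filter (fun X => s ∉ X)).card = G.card :=
      card_filter_add_card_filter_not _
    have h7' : ((G.filter (fun X => s ∈ X)).card : ℝ) + (G.filter (fun X => s ∉ X)).card = G.card := by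
      exact_mod_cast h7
    rw [h6]
    have h8 : (0 : ℝ) ≤ 1 - ε := by linarith
    calc ((G.filter (fun X => s ∉ X)).card : ℝ) ≤ (1 - ε) * G.card := by linarith
      _ ≤ (1 - ε) * ((1 - ε) ^ t * F.card) := mul_le_mul_of_nonneg_left hBc h8
      _ = (1 - ε) ^ (t + 1) * F.card := by ring

end Pool.Agent.Helper71.TVS
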