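import Mathlib

/-!
# Stars: the counting lemma (MP_92efc2)
-/

set_option autoImplicit false

open Finset

namespace Pool.Agent.Helper71.TVS

variable {α : Type*} [DecidableEq α]

/-- if the `j`-th entry is confined to `b` values by the other entries, there are few tuples -/
theorem card_confined {r : ℕ} (M : Finset α) (j : Fin (r + 1)) (x₀ : α)
    (Q : (Fin (r + 1) → α) → Finset α) (b : ℕ) (hb : ∀ g, (Q g ∩ M).card ≤ b)
    (hQ : ∀ g x, Q (Function.update g j x) = Q g) :
    ((Fintype.piFinset (fun _ : Fin (r + 1) => M)).filter (fun g => g j ∈ Q g)).card ≤ b * M.card ^ r := by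
  classical
  set G := (Fintype.piFinset (fun _ : Fin (r + 1) => M)).filter (fun g => g j ∈ Q g) with hG
  have h1 := card_le_mul_card_image (f := fun g : Fin (r + 1) → α => Function.update g j x₀) G b (by
    intro h hh
    refine le_trans ?_ (hb h)
    refine card_le_card_of_injOn (fun g => g j) ?_ ?_
    · intro g hg
      rw [mem_coe, mem_filter] at hg
      obtain ⟨hg1, hg2⟩ := hg
      rw [hG, mem_filter, Fintype.mem_piFinset] at hg1
      rw [mem_coe, mem_inter]
      refine ⟨?_, hg1.1 j⟩
      rw [← hg2, hQ]
      exact hg1.2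
    · intro g hg g' hg' hgg
      rw [mem_coe, mem_filter] at hg hg'
      have h2 : Function.update g j x₀ = Function.update g' j x₀ := hg.2.trans hg'.2.symm
      funext i
      by_cases hi : i = j
      · subst hi
        exact hgg
      · have := congrFun h2 i
        rwa [Function.update_of_ne hi, Function.update_of_ne hi] at this)
  refine h1.trans (Nat.mul_le_mul_left b ?_)
  have h3 : G.image (fun g : Fin (r + 1) → α => Function.update g j x₀) ⊆
      Fintype.piFinset (fun i : Fin (r + 1) => if i = j then {x₀} else M) := by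
    intro h hh
    obtain ⟨g, hg, rfl⟩ := mem_image.1 hh
    rw [hG, mem_filter, Fintype.mem_piFinset] at hg
    rw [Fintype.mem_piFinset]
    intro i
    by_cases hi : i = j
    · subst hi
      simp
    · rw [if_neg hi, Function.update_of_ne hi]
      exact hg.1 i
  refine (card_le_card h3).trans (le_of_eq ?_)
  rw [Fintype.card_piFinset]
  have h4 : ∀ i : Fin (r + 1), (if i = j then ({x₀} : Finset α) else M).card = if i = j then 1 else M.card := by
    intro i
    split_ifs <;> simp
  simp_rw [h4]
  rw [prod_ite, prod_const_one, one_mul, prod_const]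
  congr 1
  rw [filter_ne', card_erase_of_mem (mem_univ _), card_univ, Fintype.card_fin]
  omega

/-- the counting lemma -/
theorem exists_generic {r k b : ℕ} (M : Finset α) (X : Finset α → Finset α)
    (hX : ∀ A ⊆ M, A.card = k → (X A ∩ M).card ≤ b)
    (hM : (2 ^ (r + 1) * (r + 1)) * b + (r + 1) * (r + 1) < M.card) :
    ∃ M' ⊆ M, M'.card = r + 1 ∧ ∀ A ⊆ M', A.card = k → Disjoint (X A) (M' \ A) := by
  classical
  set P := Fintype.piFinset (fun _ : Fin (r + 1) => M) with hP
  have hPc : P.card = M.card ^ (r + 1) := by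
    rw [hP, Fintype.card_piFinset, prod_const, card_univ, Fintype.card_fin]
  obtain ⟨x₀, hx₀⟩ : M.Nonempty := card_pos.1 (by omega)
  -- the two kinds of bad tuples
  let Q1 : Fin (r + 1) × Fin (r + 1) → Finset (Fin (r + 1) → α) := fun p =>
    if p.1 = p.2 then ∅ else P.filter (fun g => g p.1 ∈ ({g p.2} : Finset α))
  let Q2 : Finset (Fin (r + 1)) × Fin (r + 1) → Finset (Fin (r + 1) → α) := fun p =>
    if p.2 ∈ p.1 then ∅ else P.filter (fun g => g p.2 ∈
      (if (p.1.image g) ⊆ M ∧ (p.1.image g).card = k then X (p.1.image g) else ∅))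
  have hQ1 : ∀ p, (Q1 p).card ≤ 1 * M.card ^ r := by
    intro p
    simp only [Q1]
    split_ifs with h
    · simp
    · refine card_confined M p.1 x₀ (fun g => {g p.2}) 1 (fun g => ?_) (fun g x => ?_)
      · exact (card_le_card inter_subset_left).trans (by simp)
      · rw [Function.update_of_ne (Ne.symm h)]
  have hQ2 : ∀ p, (Q2 p).card ≤ b * M.card ^ r := by
    intro p
    simp only [Q2]
    split_ifs with h
    · simp
    · refine card_confined M p.2 x₀ (fun g => if (p.1.image g) ⊆ M ∧ (p.1.image g).card = k then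
        X (p.1.image g) else ∅) b (fun g => ?_) (fun g x => ?_)
      · split_ifs with h'
        · exact hX _ h'.1 h'.2
        · simp
      · have h2 : p.1.image (Function.update g p.2 x) = p.1.image g := by
          refine image_congr fun i hi => ?_
          rw [Function.update_of_ne]
          rintro rfl
          exact h hi
        simp only [h2]
  have hbad : ((univ.biUnion Q1) ∪ (univ.biUnion Q2)).card < P.card := by
    calc ((univ.biUnion Q1) ∪ (univ.biUnion Q2)).card ≤ (univ.biUnion Q1).card + (univ.biUnion Q2).card :=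
          card_union_le _ _
      _ ≤ (∑ p : Fin (r + 1) × Fin (r + 1), 1 * M.card ^ r) +
          ∑ p : Finset (Fin (r + 1)) × Fin (r + 1), b * M.card ^ r :=
          Nat.add_le_add (card_biUnion_le.trans (sum_le_sum fun p _ => hQ1 p))
            (card_biUnion_le.trans (sum_le_sum fun p _ => hQ2 p))
      _ = ((2 ^ (r + 1) * (r + 1)) * b + (r + 1) * (r + 1)) * M.card ^ r := by
          simp only [sum_const, card_univ, Fintype.card_prod, Fintype.card_fin, Fintype.card_finset, smul_eq_mul]
          ring
      _ < M.card * M.card ^ r := by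
          refine Nat.mul_lt_mul_of_pos_right hM (Nat.pow_pos (card_pos.2 ⟨x₀, hx₀⟩))
      _ = P.card := by rw [hPc, pow_succ, mul_comm]
  obtain ⟨g, hg, hgb⟩ : ∃ g ∈ P, g ∉ (univ.biUnion Q1) ∪ (univ.biUnion Q2) := by
    by_contra hcon
    push Not at hcon
    exact absurd (card_le_card hcon) (not_le.2 hbad)
  rw [mem_union, not_or] at hgb
  have hinj : Function.Injective g := by
    intro i j hij
    by_contra hne
    refine hgb.1 (mem_biUnion.2 ⟨(i, j), mem_univ _, ?_⟩)
    simp only [Q1, if_neg hne, mem_filter, mem_singleton]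
    exact ⟨hg, hij⟩
  have hgM : ∀ i, g i ∈ M := Fintype.mem_piFinset.1 hg
  refine ⟨univ.image g, ?_, ?_, ?_⟩
  · intro x hx
    obtain ⟨i, -, rfl⟩ := mem_image.1 hx
    exact hgM i
  · rw [card_image_of_injective _ hinj, card_univ, Fintype.card_fin]
  · intro A hA hAk
    rw [disjoint_right]
    intro x hx hxX
    rw [mem_sdiff] at hx
    obtain ⟨j, -, rfl⟩ := mem_image.1 hx.1
    set J := univ.filter (fun i => g i ∈ A) with hJ
    have hJA : J.image g = A := by
      ext y
      simp only [hJ, mem_image, mem_filter, mem_univ, true_and]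
      constructor
      · rintro ⟨i, hi, rfl⟩
        exact hi
      · intro hy
        obtain ⟨i, -, rfl⟩ := mem_image.1 (hA hy)
        exact ⟨i, hy, rfl⟩
    have hjJ : j ∉ J := fun h => hx.2 (mem_filter.1 h).2
    refine hgb.2 (mem_biUnion.2 ⟨(J, j), mem_univ _, ?_⟩)
    have hAM : A ⊆ M := fun y hy => by
      obtain ⟨i, -, rfl⟩ := mem_image.1 (hA hy)
      exact hgM i
    simp only [Q2, if_neg hjJ, mem_filter, hJA]
    refine ⟨hg, ?_⟩
    rw [if_pos ⟨hAM, hAk⟩]
    exact hxX

end Pool.Agent.Helper71.TVS
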