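import Pool.Agent.Helper71.TVS.Star

/-!
# Stars: the moment curve (MP_92efc2)
-/

set_option autoImplicit false

open Finset Polynomial

namespace Pool.Agent.Helper71.TVS

/-- the moment curve -/
def mom (d : ℕ) (t : ℝ) : Fin d → ℝ := fun i => t ^ ((i : ℕ) + 1)

/-- the functional of a polynomial -/
noncomputable def pf {d : ℕ} (p : ℝ[X]) : (Fin d → ℝ) →ₗ[ℝ] ℝ :=
  ∑ i : Fin d, p.coeff ((i : ℕ) + 1) • LinearMap.proj i

theorem pf_mom {d : ℕ} (p : ℝ[X]) (hp : p.natDegree ≤ d) (t : ℝ) :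
    pf p (mom d t) = p.eval t - p.coeff 0 := by
  rw [eval_eq_sum_range' (n := d + 1) (by omega) t, sum_range_succ']
  simp only [pf, LinearMap.sum_apply, LinearMap.smul_apply, LinearMap.proj_apply, smul_eq_mul, mom]
  rw [Fin.sum_univ_eq_sum_range (fun i => p.coeff (i + 1) * t ^ (i + 1)) d]
  simp

/-- `N` points of the moment curve -/
noncomputable def momSet (d N : ℕ) : Finset (Fin d → ℝ) :=
  (range N).image (fun t : ℕ => mom d (t : ℝ))

theorem mom_inj {d : ℕ} (hd : 0 < d) {s t : ℝ} (h : mom d s = mom d t) : s = t := by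
  have := congrFun h ⟨0, hd⟩
  simpa [mom] using this

theorem card_momSet {d : ℕ} (hd : 0 < d) (N : ℕ) : (momSet d N).card = N := by
  unfold momSet
  rw [card_image_of_injective _ (fun s t h => by exact_mod_cast mom_inj hd h), card_range]

theorem mem_momSet {d N : ℕ} {x : Fin d → ℝ} (h : x ∈ momSet d N) : ∃ t : ℝ, x = mom d t := by
  obtain ⟨t, -, rfl⟩ := mem_image.1 h
  exact ⟨t, rfl⟩

/-- general position -/
theorem genPos_mom {d : ℕ} (hd : 0 < d) (N : ℕ) (A : Finset (Fin d → ℝ)) (hA : A ⊆ momSet d N)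
    (hc : A.card = d + 1) : ¬ ∃ (a : Fin d → ℝ) (b : ℝ), a ≠ 0 ∧ ∀ x ∈ A, ∑ i, a i * x i = b := by
  rintro ⟨a, b, ha, hab⟩
  set p : ℝ[X] := (∑ i : Fin d, C (a i) * X ^ ((i : ℕ) + 1)) - C b with hp
  have hdeg : p.natDegree ≤ d := by
    refine (natDegree_sub_le _ _).trans (max_le ?_ (by simp))
    refine natDegree_sum_le_of_forall_le _ _ fun i _ => ?_
    refine (natDegree_C_mul_X_pow_le _ _).trans ?_
    have := i.2
    omega
  have heval : ∀ t : ℝ, p.eval t = (∑ i, a i * mom d t i) - b := by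
    intro t
    simp [hp, eval_finset_sum, mom]
  have hp0 : p = 0 := by
    refine eq_zero_of_natDegree_lt_card_of_eval_eq_zero' p (A.image (fun x => x ⟨0, hd⟩)) ?_ ?_
    · intro t ht
      obtain ⟨x, hx, rfl⟩ := mem_image.1 ht
      obtain ⟨t, ht⟩ := mem_momSet (hA hx)
      have h1 : x ⟨0, hd⟩ = t := by
        rw [ht]
        simp [mom]
      rw [h1, heval, ← ht, hab x hx, sub_self]
    · rw [card_image_of_injOn, hc]
      · omega
      · intro x hx y hy hxy
        obtain ⟨s, rfl⟩ := mem_momSet (hA hx)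
        obtain ⟨t, rfl⟩ := mem_momSet (hA hy)
        simp only [mom, zero_add, pow_one] at hxy
        rw [hxy]
  apply ha
  funext j
  have h2 := congrArg (fun r : ℝ[X] => r.coeff ((j : ℕ) + 1)) hp0
  simp only [hp, coeff_sub, finset_sum_coeff, coeff_C_mul, coeff_X_pow, coeff_C_succ, sub_zero, coeff_zero] at h2
  rw [sum_eq_single j] at h2
  · simpa using h2
  · intro i _ hij
    rw [if_neg, mul_zero]
    intro h
    apply hij
    apply Fin.ext
    omega
  · intro h
    exact absurd (mem_univ j) h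

/-- `k` points of the moment curve of a space of dimension at least `2k` are a face -/
theorem small_face {d k N : ℕ} (hd : 0 < d) (hk : 2 * k ≤ d) {P Q : Finset (Fin d → ℝ)} (hP : P ⊆ momSet d N)
    (hQ : Q ⊆ momSet d N) (hPQ : Disjoint P Q) (hc : P.card ≤ k) : ¬ Meet P Q := by
  set T : Finset ℝ := P.image (fun x => x ⟨0, hd⟩) with hT
  have hTc : T.card ≤ k := card_image_le.trans hc
  set p : ℝ[X] := ∏ t ∈ T, (X - C t) ^ 2 with hp
  have hdeg : p.natDegree ≤ d := by
    refine (natDegree_prod_le _ _).trans ?_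
    refine (sum_le_card_nsmul _ _ 2 fun t _ => ?_).trans ?_
    · refine natDegree_pow_le.trans ?_
      rw [natDegree_X_sub_C]
    · rw [smul_eq_mul]
      omega
  have heval : ∀ t : ℝ, p.eval t = ∏ s ∈ T, (t - s) ^ 2 := by
    intro t
    simp [hp, eval_prod]
  intro h
  refine not_meet_of_sep (-(pf p : (Fin d → ℝ) →ₗ[ℝ] ℝ)) (p.coeff 0) (A := Q) (B := P) ?_ ?_ h.symm
  · intro x hx
    obtain ⟨t, ht⟩ := mem_momSet (hQ hx)
    rw [ht, LinearMap.neg_apply, pf_mom p hdeg, heval]
    have h1 : 0 < ∏ s ∈ T, (t - s) ^ 2 := by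
      refine prod_pos fun s hs => ?_
      obtain ⟨y, hy, rfl⟩ := mem_image.1 hs
      obtain ⟨r, hr⟩ := mem_momSet (hP hy)
      have h2 : y ⟨0, hd⟩ = r := by
        rw [hr]
        simp [mom]
      rw [h2]
      have h3 : t - r ≠ 0 := by
        intro h4
        have h5 : t = r := by linarith
        rw [h5, ← hr] at ht
        rw [ht] at hx
        exact disjoint_left.1 hPQ hy hx
      positivity
    linarith
  · intro x hx
    obtain ⟨t, ht⟩ := mem_momSet (hP hx)
    rw [ht, LinearMap.neg_apply, pf_mom p hdeg, heval]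
    have h1 : ∏ s ∈ T, (t - s) ^ 2 = 0 := by
      refine prod_eq_zero (i := t) ?_ (by ring)
      refine mem_image.2 ⟨x, hx, ?_⟩
      rw [ht]
      simp [mom]
    rw [h1]
    linarith

end Pool.Agent.Helper71.TVS
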