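import Pool.Agent.Helper71.TVS.Basic
import Pool.Agent.Helper71.TVS.Count

/-!
# Stars: good sets and the partition (MP_92efc2)
-/

set_option autoImplicit false

open Finset

namespace Pool.Agent.Helper71.TVS

variable {E : Type*} [NormedAddCommGroup E] [NormedSpace ℝ E] [DecidableEq E]

/-- no `d + 1` points on a hyperplane -/
def GP (d : ℕ) (S : Finset E) : Prop :=
  ∀ A ⊆ S, A.card = d + 1 → ∀ (φ : E →ₗ[ℝ] ℝ) (b : ℝ), φ ≠ 0 → ¬ ∀ x ∈ A, φ x = b

theorem not_meet_of_GP [FiniteDimensional ℝ E] {d : ℕ} (hd : Module.finrank ℝ E = d) {S A A' : Finset E}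
    (hS : GP d S) (hA : A ⊆ S) (hA' : A' ⊆ S) (hAA : Disjoint A A') (hc : A.card + A'.card = d + 1) :
    ¬ Meet A A' := by
  have hU : (A ∪ A').card = d + 1 := by rw [card_union_of_disjoint hAA, hc]
  have hind : AffineIndependent ℝ (fun x : ((A ∪ A' : Finset E)) => (x : E)) := by
    by_contra hcon
    have hcard : Fintype.card ((A ∪ A' : Finset E)) = d + 1 := by rw [Fintype.card_coe, hU]
    rw [affineIndependent_iff_le_finrank_vectorSpan ℝ _ hcard, not_le] at hcon
    have hlt : vectorSpan ℝ (Set.range fun x : ((A ∪ A' : Finset E)) => (x : E)) < ⊤ := by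
      rw [lt_top_iff_ne_top]
      intro h
      rw [h, finrank_top, hd] at hcon
      exact lt_irrefl _ hcon
    obtain ⟨φ, hφ, hker⟩ := Submodule.exists_le_ker_of_lt_top _ hlt
    obtain ⟨x₀, hx₀⟩ : (A ∪ A').Nonempty := card_pos.1 (by omega)
    refine hS (A ∪ A') (union_subset hA hA') hU φ (φ x₀) hφ fun x hx => ?_
    have h1 : x -ᵥ x₀ ∈ vectorSpan ℝ (Set.range fun x : ((A ∪ A' : Finset E)) => (x : E)) :=
      vsub_mem_vectorSpan ℝ ⟨⟨x, hx⟩, rfl⟩ ⟨⟨x₀, hx₀⟩, rfl⟩
    have h2 := hker h1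
    rw [LinearMap.mem_ker, vsub_eq_sub, map_sub, sub_eq_zero] at h2
    exact h2
  rintro ⟨z, hz⟩
  rw [← hind.convexHull_inter subset_union_left subset_union_right] at hz
  have h3 : ((A : Set E) ∩ (A' : Set E)) = ∅ := by
    rw [← Set.disjoint_iff_inter_eq_empty]
    exact_mod_cast hAA
  rw [h3, convexHull_empty] at hz
  exact hz

/-- among `3k+3` points of a space of dimension `2k+1` there are `k+1` whose hull meets the hull of the rest -/
theorem exists_A [FiniteDimensional ℝ E] {k : ℕ} (hE : Module.finrank ℝ E = 2 * k + 1) (M : Finset E)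
    (hM : M.card = 3 * k + 3) : ∃ A ⊆ M, A.card = k + 1 ∧ Meet A (M \ A) := by
  have key : ∀ R₁ R₂ : Finset E, R₁ ⊆ M → R₂ ⊆ M → Disjoint R₁ R₂ → Meet R₁ R₂ → R₁.card ≤ k + 1 →
      R₁.card + R₂.card = 2 * k + 3 → ∃ A ⊆ M, A.card = k + 1 ∧ Meet A (M \ A) := by
    intro R₁ R₂ h1 h2 h3 h4 h5 h6
    have h7 : 0 < R₁.card := card_pos.2 h4.left
    obtain ⟨A, hA1, hA2, hA3⟩ := exists_subsuperset_card_eq (s := R₁) (t := M \ R₂) (n := k + 1)
      (fun x hx => mem_sdiff.2 ⟨h1 hx, disjoint_left.1 h3 hx⟩) h5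
      (by rw [card_sdiff_of_subset h2]; omega)
    refine ⟨A, hA2.trans sdiff_subset, hA3, h4.mono hA1 ?_⟩
    intro x hx
    exact mem_sdiff.2 ⟨h2 hx, fun hxA => (mem_sdiff.1 (hA2 hxA)).2 hx⟩
  obtain ⟨T, hT, hTc⟩ := exists_subset_card_eq (s := M) (n := 2 * k + 3) (by omega)
  obtain ⟨I, hI, hm⟩ := radon T (by rw [hE, hTc])
  have hsum : I.card + (T \ I).card = 2 * k + 3 := by
    rw [card_sdiff_of_subset hI]
    have := card_le_card hI
    omega
  rcases Nat.lt_or_ge (k + 1) I.card with h | h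
  · exact key (T \ I) I (sdiff_subset.trans hT) (hI.trans hT) disjoint_sdiff.symm hm.symm (by omega) (by omega)
  · exact key I (T \ I) (hI.trans hT) (sdiff_subset.trans hT) disjoint_sdiff hm h hsum

/-- many points off a hitting set contain `k + 1` points whose hull meets the hull of the hitting set -/
theorem exists_good [FiniteDimensional ℝ E] {k b : ℕ} (hE : Module.finrank ℝ E = 2 * k + 1) {S B M : Finset E}
    (hB : ∀ X ∈ Fam S, b < X.card → ¬ Disjoint X B) (hM : M ⊆ S)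
    (hc : (2 ^ (3 * k + 3) * (3 * k + 3)) * b + (3 * k + 3) * (3 * k + 3) < M.card) :
    ∃ A ⊆ M, A.card = k + 1 ∧ Meet A B := by
  by_contra hcon
  push Not at hcon
  have h1 : ∀ A : Finset E, ∃ X : Finset E, A ⊆ M → A.card = k + 1 → X ∈ Fam S ∧ A ⊆ X ∧ Disjoint X B := by
    intro A
    by_cases h : A ⊆ M ∧ A.card = k + 1
    · obtain ⟨X, hX⟩ := exists_sep (h.1.trans hM) (hcon A h.1 h.2)
      exact ⟨X, fun _ _ => hX⟩
    · exact ⟨∅, fun h2 h3 => absurd ⟨h2, h3⟩ h⟩
  choose X hX using h1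
  obtain ⟨M', hM', hM'c, hdis⟩ := exists_generic (r := 3 * k + 2) (k := k + 1) (b := b) M X (by
    intro A hA hAc
    obtain ⟨h2, -, h3⟩ := hX A hA hAc
    refine (card_le_card inter_subset_left).trans ?_
    by_contra hlt
    exact hB _ h2 (not_le.1 hlt) h3) hc
  obtain ⟨A, hA, hAc, hm⟩ := exists_A hE M' hM'c
  obtain ⟨h2, h3, -⟩ := hX A (hA.trans hM') hAc
  refine (mem_Fam.1 h2).2 (hm.mono h3 ?_)
  intro x hx
  exact mem_sdiff.2 ⟨hM (hM' (mem_sdiff.1 hx).1), fun hxX => disjoint_left.1 (hdis A hA hAc) hxX hx⟩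

/-- extraction of disjoint good sets -/
theorem extract {k m₀ : ℕ} {N B : Finset E}
    (hg : ∀ M ⊆ N, m₀ ≤ M.card → ∃ A ⊆ M, A.card = k + 1 ∧ Meet A B) (j : ℕ) :
    ∀ M ⊆ N, m₀ + (k + 1) * j ≤ M.card → ∃ L : Fin j → Finset E,
      (∀ i, L i ⊆ M ∧ (L i).card = k + 1 ∧ Meet (L i) B) ∧ ∀ i i', i ≠ i' → Disjoint (L i) (L i') := by
  induction j with
  | zero => exact fun M _ _ => ⟨Fin.elim0, fun i => i.elim0, fun i => i.elim0⟩
  | succ j ih =>
    intro M hM hMc
    obtain ⟨A, hA, hAc, hAm⟩ := hg M hM (by nlinarith)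
    obtain ⟨L, hL, hLd⟩ := ih (M \ A) (sdiff_subset.trans hM) (by
      rw [card_sdiff_of_subset hA, hAc]
      rw [mul_add, mul_one] at hMc
      omega)
    refine ⟨Fin.cons A L, ?_, ?_⟩
    · intro i
      refine Fin.cases ?_ (fun i => ?_) i
      · exact ⟨hA, hAc, hAm⟩
      · exact ⟨(hL i).1.trans sdiff_subset, (hL i).2.1, (hL i).2.2⟩
    · intro i i'
      refine Fin.cases ?_ (fun i => ?_) i
      · refine Fin.cases (fun h => absurd rfl h) (fun i' _ => ?_) i'
        exact disjoint_of_subset_right (hL i').1 disjoint_sdiff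
      · refine Fin.cases (fun _ => ?_) (fun i' h => ?_) i'
        · exact (disjoint_of_subset_right (hL i).1 disjoint_sdiff).symm
        · exact hLd i i' fun h' => h (by rw [h'])

/-- the partition whose nerve is a star: the centre is part `0` -/
theorem star_parts [FiniteDimensional ℝ E] {k b j : ℕ} (hE : Module.finrank ℝ E = 2 * k + 1) {S B : Finset E}
    (hS : GP (2 * k + 1) S) (hBS : B ⊆ S) (hB : ∀ X ∈ Fam S, b < X.card → ¬ Disjoint X B)
    (hc : B.card + ((2 ^ (3 * k + 3) * (3 * k + 3)) * b + (3 * k + 3) * (3 * k + 3) + 1) + (k + 1) * j ≤ S.card) :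
    ∃ P : Fin (j + 1) → Finset E, (∀ i, (P i).Nonempty) ∧ (∀ i i', i ≠ i' → Disjoint (P i) (P i')) ∧
      (∀ x, x ∈ S ↔ ∃ i, x ∈ P i) ∧ ∀ i i', i ≠ i' → (Meet (P i) (P i') ↔ i = 0 ∨ i' = 0) := by
  obtain ⟨L, hL, hLd⟩ := extract (k := k) (N := S \ B) (B := B)
    (m₀ := (2 ^ (3 * k + 3) * (3 * k + 3)) * b + (3 * k + 3) * (3 * k + 3) + 1)
    (fun M hM hMc => exists_good hE hB (hM.trans sdiff_subset) (by omega)) j (S \ B) Subset.rfl
    (by rw [card_sdiff_of_subset hBS]; omega)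
  have hLB : ∀ i, Disjoint (L i) B := fun i => disjoint_of_subset_left (hL i).1 sdiff_disjoint
  have hBC : B ⊆ S \ univ.biUnion L := by
    intro x hx
    rw [mem_sdiff, mem_biUnion]
    refine ⟨hBS hx, ?_⟩
    rintro ⟨i, -, hi⟩
    exact disjoint_left.1 (hLB i) hi hx
  have hLC : ∀ i, Disjoint (S \ univ.biUnion L) (L i) := by
    intro i
    rw [disjoint_left]
    intro x hx hx'
    exact (mem_sdiff.1 hx).2 (mem_biUnion.2 ⟨i, mem_univ _, hx'⟩)
  have hLS : ∀ i, L i ⊆ S := fun i => (hL i).1.trans sdiff_subset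
  refine ⟨Fin.cons (S \ univ.biUnion L) L, ?_, ?_, ?_, ?_⟩
  · intro i
    refine Fin.cases ?_ (fun i => ?_) i
    · rw [Fin.cons_zero]
      have h1 : (univ.biUnion L).card ≤ (k + 1) * j := by
        refine card_biUnion_le.trans ?_
        rw [sum_congr rfl fun i _ => (hL i).2.1, sum_const, card_univ, Fintype.card_fin, smul_eq_mul, mul_comm]
      rw [← card_pos]
      have h2 := le_card_sdiff (univ.biUnion L) S
      omega
    · rw [Fin.cons_succ, ← card_pos, (hL i).2.1]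
      exact Nat.succ_pos _
  · intro i i'
    refine Fin.cases ?_ (fun i => ?_) i
    · refine Fin.cases (fun h => absurd rfl h) (fun i' _ => ?_) i'
      exact hLC i'
    · refine Fin.cases (fun _ => ?_) (fun i' h => ?_) i'
      · exact (hLC i).symm
      · exact hLd i i' fun h' => h (by rw [h'])
  · intro x
    constructor
    · intro hx
      by_cases h : x ∈ univ.biUnion L
      · obtain ⟨i, -, hi⟩ := mem_biUnion.1 h
        exact ⟨i.succ, hi⟩
      · exact ⟨0, mem_sdiff.2 ⟨hx, h⟩⟩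
    · rintro ⟨i, hi⟩
      revert hi
      refine Fin.cases ?_ (fun i => ?_) i
      · exact fun h => (mem_sdiff.1 h).1
      · exact fun h => hLS i h
  · intro i i'
    refine Fin.cases ?_ (fun i => ?_) i
    · refine Fin.cases (fun h => absurd rfl h) (fun i' _ => ?_) i'
      simp only [Fin.cons_zero, Fin.cons_succ, true_or, iff_true]
      exact ((hL i').2.2.mono Subset.rfl hBC).symm
    · refine Fin.cases (fun _ => ?_) (fun i' h => ?_) i'
      · simp only [Fin.cons_zero, Fin.cons_succ, or_true, iff_true]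
        exact (hL i).2.2.mono Subset.rfl hBC
      · simp only [Fin.cons_succ, Fin.succ_ne_zero, or_self, iff_false]
        refine not_meet_of_GP hE hS (hLS i) (hLS i') (hLd i i' fun h' => h (by rw [h'])) ?_
        rw [(hL i).2.1, (hL i').2.1]
        ring

end Pool.Agent.Helper71.TVS
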